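import Pool.Agent.V11296.FP13

/-!
# The topological Chowla property on almost all sets of positions

For almost all tuples `h_1, …, h_d ≤ N` of positions, where the number `d` may grow like `A log log N / log log log N`, the
Möbius function has the topological Chowla property on the positions `h_1, …, h_d`: every pattern of `-1, 0, 1` on these
positions whose square occurs in `μ²` (at any place at all) occurs in `μ`, in fact at `N / (log N) ^ K` places `n ≤ N` at
least. And a pattern of `μ` with `q` nonzero entries is `2 ^ q` times rarer than its square is in `μ²`, for almost all tuples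
of up to `A log log N` positions, which may also be taken from thin families.
-/

set_option autoImplicit false

namespace Pool.Agent.Results.MP_0f2f95_nt.PatternsOnSparseSets

open Finset
open ArithmeticFunction (moebius)

/-- The `d`-tuples of numbers from `1` to `x`. -/
def tuples (d x : ℕ) : Finset (Fin d → ℕ) := Fintype.piFinset fun _ => Icc 1 x

/-- The number of the `n ≤ N` with `μ(n + h i) = v i` for all `i`. -/
def occ (N : ℕ) {d : ℕ} (h : Fin d → ℕ) (v : Fin d → ℤ) : ℕ :=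
  ((Icc 1 N).filter fun n => ∀ i, moebius (n + h i) = v i).card

/-- The number of the `n ≤ N` with `μ(n + h i)² = (v i)²` for all `i`. -/
def occSq (N : ℕ) {d : ℕ} (h : Fin d → ℕ) (v : Fin d → ℤ) : ℕ :=
  ((Icc 1 N).filter fun n => ∀ i, moebius (n + h i) ^ 2 = v i ^ 2).card

/-- The additive energy of order `p` of the family `s 1, …, s x`: the number of the solutions of
`s (v 1) + … + s (v p) = s (w 1) + … + s (w p)` with all `v i`, `w i` in `{1, …, x}`. -/
def energy (p x : ℕ) (s : ℕ → ℤ) : ℕ :=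
  (((Fintype.piFinset fun _ : Fin p => Icc 1 x) ×ˢ (Fintype.piFinset fun _ : Fin p => Icc 1 x)).filter
    (fun q => ∑ i, s (q.1 i) = ∑ i, s (q.2 i))).card

theorem result :
    (∀ A U : ℕ, ∃ K N₀ : ℕ, ∀ N : ℕ, N₀ ≤ N →
      ∀ d : ℕ, (d : ℝ) ≤ A * Real.log (Real.log N) / Real.log (Real.log (Real.log N)) →
      ∃ T ⊆ tuples d N, (T.card : ℝ) ≤ (N : ℝ) ^ d / Real.log (Real.log N) ^ U ∧
        ∀ h ∈ tuples d N, h ∉ T → ∀ v : Fin d → ℤ, (∀ i, v i = 0 ∨ v i = 1 ∨ v i = -1) →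
          (∃ n₀ : ℕ, ∀ i, moebius (n₀ + h i) ^ 2 = v i ^ 2) → (N : ℝ) / Real.log N ^ K ≤ occ N h v) ∧
    (∀ p B C A U : ℕ, ∃ N₀ : ℕ, ∀ N : ℕ, N₀ ≤ N → ∀ (x : ℕ) (s : ℕ → ℕ), (∀ m ∈ Icc 1 x, s m ≤ B * N) →
      (energy p x (fun m => (s m : ℤ)) : ℝ) * N ≤ Real.log N ^ C * (x : ℝ) ^ (2 * p) →
      ∀ d : ℕ, (d : ℝ) ≤ A * Real.log (Real.log N) →
      ∃ T ⊆ tuples d x, (T.card : ℝ) ≤ (x : ℝ) ^ d / Real.log N ^ U ∧
        ∀ m ∈ tuples d x, m ∉ T → ∀ v : Fin d → ℤ, (∀ i, v i = 0 ∨ v i = 1 ∨ v i = -1) →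
          |(occ N (fun i => s (m i)) v : ℝ) -
            occSq N (fun i => s (m i)) v / 2 ^ ((univ : Finset (Fin d)).filter fun i => v i ≠ 0).card| ≤
            N / Real.log N ^ U) := by
  classical
  have hv : ∀ {d : ℕ} (v : Fin d → ℤ), (∀ i, v i = 0 ∨ v i = 1 ∨ v i = -1) →
      ∀ i, ((v i : ℤ) : ℝ) = 0 ∨ ((v i : ℤ) : ℝ) = 1 ∨ ((v i : ℤ) : ℝ) = -1 := by
    intro d v hv i
    rcases hv i with h | h | h <;> rw [h]
    · left; norm_num
    · right; left; norm_num
    · right; right; norm_num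
  have hocc : ∀ (N : ℕ) {d : ℕ} (h : Fin d → ℕ) (v : Fin d → ℤ),
      ((Icc 1 N).filter fun n => ∀ i, Pool.Agent.V11296.FP.mr (n + h i) = ((v i : ℤ) : ℝ)).card = occ N h v := by
    intro N d h v
    unfold occ Pool.Agent.V11296.FP.mr
    apply congrArg card
    refine filter_congr fun n _ => forall_congr' fun i => ?_
    exact Int.cast_inj
  have hsq : ∀ {d : ℕ} (n : ℕ) (h : Fin d → ℕ) (v : Fin d → ℤ),
      (∀ i, Pool.Agent.V11296.FP.mr (n + h i) ^ 2 = ((v i : ℤ) : ℝ) ^ 2) ↔ ∀ i, moebius (n + h i) ^ 2 = v i ^ 2 := by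
    intro d n h v
    refine forall_congr' fun i => ?_
    unfold Pool.Agent.V11296.FP.mr
    rw [← Int.cast_pow, ← Int.cast_pow]
    exact Int.cast_inj
  refine ⟨?_, ?_⟩
  · intro A U
    obtain ⟨K, N₀, h⟩ := Pool.Agent.V11296.FP.topo A U
    refine ⟨K, N₀, fun N hN d hd => ?_⟩
    obtain ⟨T, hT, hTc, hTg⟩ := h N hN d hd
    refine ⟨T, hT, hTc, fun g hg hgT v hv1 hn => ?_⟩
    obtain ⟨n₀, hn₀⟩ := hn
    rw [← hocc]
    exact hTg g hg hgT (fun i => (v i : ℝ)) (hv v hv1) n₀ ((hsq n₀ g v).2 hn₀)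
  · intro p B C A U
    obtain ⟨N₀, _, h⟩ := Pool.Agent.V11296.FP.zpat p B C A U
    refine ⟨N₀, fun N hN x s hs hen d hd => ?_⟩
    obtain ⟨T, hT, hTc, hTg⟩ := h N hN x s hs hen d hd
    refine ⟨T, hT, hTc, fun m hm hmT v hv1 => ?_⟩
    have h1 := hTg m hm hmT (fun i => (v i : ℝ)) (hv v hv1) ((univ : Finset (Fin d)).filter fun i => v i ≠ 0) (by
      intro i
      simp)
    have h2 : ((Icc 1 N).filter fun n => ∀ i, Pool.Agent.V11296.FP.mr (n + s (m i)) ^ 2 = ((v i : ℤ) : ℝ) ^ 2).card =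
        occSq N (fun i => s (m i)) v := by
      unfold occSq
      apply congrArg card
      refine filter_congr fun n _ => ?_
      exact hsq n (fun i => s (m i)) v
    rw [hocc N (fun i => s (m i)) v, h2] at h1
    exact h1

end Pool.Agent.Results.MP_0f2f95_nt.PatternsOnSparseSets
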